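import Mathlib
import Pool.Agent.H211.HY.Stm6
import Pool.Agent.H37.HY211.HYPC

/-!
# OPENQ: quantitative openness of hyperbolicity near postcritically finite maps
-/

set_option autoImplicit false

open Topology Filter Metric Set MeasureTheory Polynomial

namespace Pool.Agent.H385.HY211

open Pool.Agent.H790R3.RB Pool.Agent.H211.HY Pool.Agent.H37.HY211

/-! ### Combinatorics -/

/-- in a finite set `S` with at most `m` points, in which every point is mapped into `S` by one of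
the iterates `1, …, n`, every point is mapped to a periodic point by an iterate `≤ m n`, of period
`≤ m n` -/
theorem chainN {α : Type} (f : α → α) (S : Set α) (m n : ℕ) (hS : S.Finite) (hm : S.ncard ≤ m)
    (h : ∀ c ∈ S, ∃ k : ℕ, 1 ≤ k ∧ k ≤ n ∧ f^[k] c ∈ S) (c : α) (hc : c ∈ S) :
    ∃ l P : ℕ, l ≤ m * n ∧ 1 ≤ P ∧ P ≤ m * n ∧ f^[l] c ∈ S ∧ f^[P] (f^[l] c) = f^[l] c := by
  have : Finite S := hS
  have := Fintype.ofFinite S
  choose N hN1 hN2 hN3 using h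
  let T : S → S := fun a => ⟨f^[N a.1 a.2] a.1, hN3 a.1 a.2⟩
  have hT : ∀ (i : ℕ) (a : S), ∃ L : ℕ, i ≤ L ∧ L ≤ i * n ∧ f^[L] a.1 = (T^[i] a).1 := by
    intro i
    induction i with
    | zero => exact fun a => ⟨0, le_rfl, by simp, rfl⟩
    | succ i ih =>
      intro a
      obtain ⟨L, h1, h2, h2'⟩ := ih a
      have h3 := hN1 (T^[i] a).1 (T^[i] a).2
      have h4 := hN2 (T^[i] a).1 (T^[i] a).2
      refine ⟨N (T^[i] a).1 (T^[i] a).2 + L, by omega, ?_, ?_⟩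
      · have : (i + 1) * n = n + i * n := by ring
        omega
      · rw [Function.iterate_add_apply, h2', Function.iterate_succ_apply']
  have hcard : Fintype.card S < Fintype.card (Fin (m + 1)) := by
    rw [Fintype.card_fin, ← Nat.card_eq_fintype_card]
    have : Nat.card S = S.ncard := rfl
    omega
  obtain ⟨i, j, hij, hEq⟩ := Fintype.exists_ne_map_eq_of_card_lt
    (fun i : Fin (m + 1) => T^[(i : ℕ)] (⟨c, hc⟩ : S)) hcard
  wlog hlt : i < j generalizing i j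
  · exact this j i hij.symm hEq.symm (lt_of_le_of_ne (not_lt.1 hlt) hij.symm)
  have hi : (i : ℕ) < j := hlt
  have hj : (j : ℕ) ≤ m := Nat.lt_succ_iff.1 j.2
  obtain ⟨l, -, hl', hl⟩ := hT i ⟨c, hc⟩
  obtain ⟨P, hP, hP', hP2⟩ := hT ((j : ℕ) - i) (T^[(i : ℕ)] ⟨c, hc⟩)
  refine ⟨l, P, ?_, by omega, ?_, ?_, ?_⟩
  · exact hl'.trans (Nat.mul_le_mul_right n (by omega))
  · exact hP'.trans (Nat.mul_le_mul_right n (by omega))
  · rw [hl]
    exact (T^[(i : ℕ)] ⟨c, hc⟩).2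
  · rw [hl, hP2, ← Function.iterate_add_apply]
    have h1 : (j : ℕ) - i + i = j := by omega
    rw [h1]
    exact congrArg Subtype.val hEq.symm

/-- there are at most `2 d - 1` critical points -/
theorem Cri_ncard {d : ℕ} (hd : 2 ≤ d) (x : CV d) (hx : ND x) : (Cri x).ncard ≤ 2 * d := by
  obtain ⟨-, ⟨W, hWd, hW, -⟩, -⟩ := WR d x hd
  have hW0 : W ≠ 0 := by
    rintro rfl
    obtain ⟨ζ, hζ⟩ := wr_ne hd x hx
    apply hζ
    rw [← hW ζ]
    simp
  have hsub : Cri x ⊆ (((W.roots.toFinset : Set ℂ).image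
      (fun z : ℂ => (z : OnePoint ℂ)))) ∪ {(OnePoint.infty : OnePoint ℂ)} := by
    intro a ha
    induction a using OnePoint.rec with
    | infty => exact Or.inr rfl
    | coe z =>
      left
      refine ⟨z, ?_, rfl⟩
      simp only [Finset.mem_coe, Multiset.mem_toFinset]
      rw [Polynomial.mem_roots hW0]
      have h1 : wr x (hc (z : OnePoint ℂ)) = 0 := ha
      rw [SP.hc_coe] at h1
      show W.eval z = 0
      rw [hW, h1]
  have hfin1 : ((W.roots.toFinset : Set ℂ).image (fun z : ℂ => (z : OnePoint ℂ))).Finite :=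
    (W.roots.toFinset.finite_toSet).image _
  have h1 := Set.ncard_le_ncard hsub (hfin1.union (Set.finite_singleton _))
  have h2 := Set.ncard_union_le ((W.roots.toFinset : Set ℂ).image (fun z : ℂ => (z : OnePoint ℂ)))
    {(OnePoint.infty : OnePoint ℂ)}
  have h3 := Set.ncard_image_le (f := fun z : ℂ => (z : OnePoint ℂ)) W.roots.toFinset.finite_toSet
  rw [Set.ncard_coe_finset] at h3
  rw [Set.ncard_singleton] at h2
  have h4 : W.roots.toFinset.card ≤ 2 * d - 2 :=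
    (Multiset.toFinset_card_le _).trans ((Polynomial.card_roots' W).trans hWd)
  omega

/-- an orbit which enters the basin of an attracting point after `l` steps -/
theorem reachU (f : OnePoint ℂ → OnePoint ℂ) (hf : Continuous f) (c b : OnePoint ℂ) (l P : ℕ)
    (hP : 1 ≤ P) (hb : f^[P] b = b)
    (hatt : ∃ U ∈ 𝓝 b, (∀ w ∈ U, Tendsto (fun k : ℕ => f^[P * k] w) atTop (𝓝 b)) ∧
      f^[l] c ∈ U) :
    ∃ z : OnePoint ℂ, ∃ n : ℕ, 0 < n ∧ f^[n] z = z ∧
      (∃ U ∈ 𝓝 z, ∀ w ∈ U, Tendsto (fun k : ℕ => f^[n * k] w) atTop (𝓝 z)) ∧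
      Tendsto (fun k : ℕ => f^[n * k] c) atTop (𝓝 z) := by
  obtain ⟨U, hU, hUt, hlU⟩ := hatt
  have hfc : ∀ N : ℕ, Continuous f^[N] := fun N => hf.iterate N
  have hA : ∀ w : OnePoint ℂ, f^[l] w ∈ U →
      Tendsto (fun j : ℕ => f^[P * j] w) atTop (𝓝 (f^[l * (P - 1)] b)) := by
    intro w hw
    have h1 := hUt _ hw
    have h2 : Tendsto (fun j : ℕ => f^[l * (P - 1)] (f^[P * j] (f^[l] w))) atTop
        (𝓝 (f^[l * (P - 1)] b)) := ((hfc (l * (P - 1))).tendsto b).comp h1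
    have h3 : Tendsto (fun j : ℕ => j - l) atTop atTop := tendsto_sub_atTop_nat l
    have h4 := h2.comp h3
    refine h4.congr' ?_
    filter_upwards [eventually_ge_atTop l] with j hj
    show f^[l * (P - 1)] (f^[P * (j - l)] (f^[l] w)) = f^[P * j] w
    rw [← Function.iterate_add_apply, ← Function.iterate_add_apply]
    congr 1
    obtain ⟨i, rfl⟩ := Nat.exists_eq_add_of_le hj
    obtain ⟨Q, hQ⟩ := Nat.exists_eq_add_of_le hP
    rw [hQ, Nat.add_sub_cancel_left, Nat.add_sub_cancel_left]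
    ring
  have hb' : ∀ j : ℕ, f^[P * j] b = b := by
    intro j
    rw [Function.iterate_mul]
    exact Function.iterate_fixed hb j
  refine ⟨f^[l * (P - 1)] b, P, hP, ?_, ?_, hA c hlU⟩
  · rw [← Function.iterate_add_apply, add_comm, Function.iterate_add_apply, hb]
  · refine ⟨f^[l] ⁻¹' U, ?_, fun w hw => hA w hw⟩
    refine (hfc l).continuousAt.preimage_mem_nhds ?_
    have h1 : f^[l] (f^[l * (P - 1)] b) = b := by
      rw [← Function.iterate_add_apply]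
      have h2 : l + l * (P - 1) = P * l := by
        obtain ⟨Q, hQ⟩ := Nat.exists_eq_add_of_le hP
        rw [hQ, Nat.add_sub_cancel_left]
        ring
      rw [h2, hb']
    rw [h1]
    exact hU

/-! ### The affine chart at a direction -/

/-- the orthogonal direction -/
noncomputable def pe (p : ℂ × ℂ) : ℂ × ℂ := (-(starRingEnd ℂ p.2), starRingEnd ℂ p.1)

theorem N2_pos {p : ℂ × ℂ} (hp : p ≠ 0) : 0 < N2 p := by
  unfold N2
  by_contra h
  push Not at h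
  have h1 : ‖p.1‖ ^ 2 = 0 := le_antisymm (by nlinarith [sq_nonneg ‖p.2‖]) (sq_nonneg _)
  have h2 : ‖p.2‖ ^ 2 = 0 := le_antisymm (by nlinarith [sq_nonneg ‖p.1‖]) (sq_nonneg _)
  exact hp (Prod.ext (norm_eq_zero.1 (pow_eq_zero_iff two_ne_zero |>.1 h1))
    (norm_eq_zero.1 (pow_eq_zero_iff two_ne_zero |>.1 h2)))

theorem nsq (z : ℂ) : ((‖z‖ ^ 2 : ℝ) : ℂ) = z * starRingEnd ℂ z := by
  rw [Complex.mul_conj, Complex.normSq_eq_norm_sq]

theorem cr_pe (p : ℂ × ℂ) : cr p (pe p) = (N2 p : ℂ) := by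
  unfold N2
  rw [Complex.ofReal_add, nsq, nsq]
  simp only [cr, pe]
  ring

theorem pyth (p q : ℂ × ℂ) : ‖cr p q‖ ^ 2 + ‖cr q (pe p)‖ ^ 2 = N2 p * N2 q := by
  have h : ((‖cr p q‖ ^ 2 + ‖cr q (pe p)‖ ^ 2 : ℝ) : ℂ) = ((N2 p * N2 q : ℝ) : ℂ) := by
    unfold N2
    rw [Complex.ofReal_add, nsq, nsq, Complex.ofReal_mul, Complex.ofReal_add, Complex.ofReal_add,
      nsq, nsq, nsq, nsq]
    simp only [cr, pe, map_sub, map_mul, map_neg, Complex.conj_conj]
    ring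
  exact_mod_cast h

theorem cr_line (p : ℂ × ℂ) (t : ℂ) : cr p (p + t • pe p) = t * (N2 p : ℂ) := by
  rw [← cr_pe]
  simp only [cr, Prod.fst_add, Prod.snd_add, Prod.smul_fst, Prod.smul_snd, smul_eq_mul]
  ring

theorem cr_line' (p : ℂ × ℂ) (t : ℂ) : cr (p + t • pe p) (pe p) = (N2 p : ℂ) := by
  rw [← cr_pe]
  simp only [cr, Prod.fst_add, Prod.snd_add, Prod.smul_fst, Prod.smul_snd, smul_eq_mul]
  ring

theorem line_ne {p : ℂ × ℂ} (hp : p ≠ 0) (t : ℂ) : p + t • pe p ≠ 0 := by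
  intro h
  have h1 := cr_line' p t
  rw [h] at h1
  have h2 : (N2 p : ℂ) ≠ 0 := by exact_mod_cast (N2_pos hp).ne'
  apply h2
  rw [← h1]
  simp [cr]

theorem cho_sq {p q : ℂ × ℂ} (hp : p ≠ 0) (hq : q ≠ 0) :
    cho p q ^ 2 * (N2 p * N2 q) = ‖cr p q‖ ^ 2 := by
  have h1 : 0 < N2 p * N2 q := mul_pos (N2_pos hp) (N2_pos hq)
  unfold cho
  rw [div_pow, Real.sq_sqrt h1.le, div_mul_cancel₀ _ h1.ne']

theorem cho_nonneg (p q : ℂ × ℂ) : 0 ≤ cho p q := div_nonneg (norm_nonneg _) (Real.sqrt_nonneg _)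

theorem cho_line {p : ℂ × ℂ} (hp : p ≠ 0) (t : ℂ) : cho p (p + t • pe p) ≤ ‖t‖ := by
  have hq := line_ne hp t
  have h1 := cho_sq hp hq
  have h2 := pyth p (p + t • pe p)
  rw [cr_line, cr_line'] at h2
  rw [cr_line] at h1
  have hN := N2_pos hp
  have hN' := N2_pos hq
  rw [norm_mul, Complex.norm_real, Real.norm_of_nonneg hN.le] at h1 h2
  have h3 : N2 p * N2 p ≤ N2 p * N2 (p + t • pe p) := by nlinarith [sq_nonneg (‖t‖ * N2 p)]
  have h4 : cho p (p + t • pe p) ^ 2 * (N2 p * N2 p) ≤ ‖t‖ ^ 2 * (N2 p * N2 p) := by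
    calc _ ≤ cho p (p + t • pe p) ^ 2 * (N2 p * N2 (p + t • pe p)) :=
          mul_le_mul_of_nonneg_left h3 (sq_nonneg _)
      _ = _ := by rw [h1]; ring
  have h5 := le_of_mul_le_mul_right h4 (mul_pos hN hN)
  exact (pow_le_pow_iff_left₀ (cho_nonneg _ _) (norm_nonneg _) two_ne_zero).1 h5

/-- the coordinate of a direction near `p` -/
theorem coord {p q : ℂ × ℂ} (hp : p ≠ 0) (hq : q ≠ 0) {τ : ℝ} (hτ : τ ≤ 1 / 2)
    (h : cho p q ≤ τ) : cr q (pe p) ≠ 0 ∧ ‖cr p q / cr q (pe p)‖ ≤ 2 * τ := by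
  have hN : 0 < N2 p * N2 q := mul_pos (N2_pos hp) (N2_pos hq)
  have h1 := cho_sq hp hq
  have h2 := pyth p q
  have h0 := cho_nonneg p q
  have hτ0 : 0 ≤ τ := h0.trans h
  have h3 : cho p q ^ 2 ≤ 1 / 4 := by nlinarith
  have h3' : cho p q ^ 2 ≤ τ ^ 2 := pow_le_pow_left₀ h0 h 2
  have h4 : 3 / 4 * (N2 p * N2 q) ≤ ‖cr q (pe p)‖ ^ 2 := by nlinarith
  have h5 : 0 < ‖cr q (pe p)‖ := by
    by_contra hcon
    have : ‖cr q (pe p)‖ = 0 := le_antisymm (not_lt.1 hcon) (norm_nonneg _)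
    rw [this] at h4
    nlinarith
  refine ⟨norm_pos_iff.1 h5, ?_⟩
  rw [norm_div, div_le_iff₀ h5]
  have h6 : ‖cr p q‖ ^ 2 ≤ (2 * τ * ‖cr q (pe p)‖) ^ 2 := by
    rw [mul_pow, ← h1]
    have h7 : cho p q ^ 2 * (N2 p * N2 q) ≤ τ ^ 2 * (N2 p * N2 q) :=
      mul_le_mul_of_nonneg_right h3' hN.le
    have h8 : τ ^ 2 * (3 / 4 * (N2 p * N2 q)) ≤ τ ^ 2 * ‖cr q (pe p)‖ ^ 2 :=
      mul_le_mul_of_nonneg_left h4 (sq_nonneg _)
    nlinarith [mul_nonneg (sq_nonneg τ) hN.le]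
  exact (pow_le_pow_iff_left₀ (norm_nonneg _) (by positivity) two_ne_zero).1 h6

theorem cr_coord {p q : ℂ × ℂ} (h : cr q (pe p) ≠ 0) :
    cr q (p + (cr p q / cr q (pe p)) • pe p) = 0 := by
  have h1 : cr q (p + (cr p q / cr q (pe p)) • pe p) =
      cr q p + cr p q / cr q (pe p) * cr q (pe p) := by
    simp only [cr, Prod.fst_add, Prod.snd_add, Prod.smul_fst, Prod.smul_snd, smul_eq_mul]
    ring
  rw [h1, div_mul_cancel₀ _ h, cr_comm q p]
  ring

/-! ### The neighbourhoods -/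

/-- the coefficient vector of the linear map `q ↦ (cr p q, cr q (pe p))` -/
noncomputable def lx (p : ℂ × ℂ) : CV 1 := fun i =>
  if i.1 = 0 then (if i.2 = 0 then p.1 else -p.2) else (if i.2 = 0 then -(pe p).1 else (pe p).2)

theorem hF_lx (p q : ℂ × ℂ) : hF (lx p) q = (cr p q, cr q (pe p)) := by
  unfold hF
  rw [Fin.sum_univ_two, Fin.sum_univ_two]
  refine Prod.ext ?_ ?_
  · simp [lx, cr]
    ring
  · simp [lx, cr]
    ring

theorem ND_lx {p : ℂ × ℂ} (hp : p ≠ 0) : ND (lx p) := by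
  intro q hq
  rw [hF_lx] at hq
  have h1 : cr p q = 0 := congrArg Prod.fst hq
  have h2 : cr q (pe p) = 0 := congrArg Prod.snd hq
  have h3 := pyth p q
  rw [h1, h2] at h3
  by_contra hne
  have := mul_pos (N2_pos hp) (N2_pos hne)
  simp at h3
  rcases h3 with h3 | h3
  · exact (N2_pos hp).ne' h3
  · exact (N2_pos hne).ne' h3

theorem nbhd {p : ℂ × ℂ} (hp : p ≠ 0) {r : ℝ} {a : ℂ} (ha : a ∈ ball (0 : ℂ) r) :
    {u : OnePoint ℂ | ∃ t ∈ ball (0 : ℂ) r, u = pr (p + t • pe p)} ∈ 𝓝 (pr (p + a • pe p)) := by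
  obtain ⟨hcont, hsp, hprcr, hhc, hprc⟩ := SP 1 (lx p) le_rfl (ND_lx hp)
  have hop : IsOpen ((fun z : ℂ => (z : OnePoint ℂ)) '' ball (0 : ℂ) r) :=
    OnePoint.isOpenEmbedding_coe.isOpenMap _ isOpen_ball
  have hN : (N2 p : ℂ) ≠ 0 := by exact_mod_cast (N2_pos hp).ne'
  have h1 : sp (lx p) (pr (p + a • pe p)) = (a : OnePoint ℂ) := by
    have h2 := hsp _ (line_ne hp a) 1
    rw [Function.iterate_one, Function.iterate_one, hF_lx, cr_line, cr_line'] at h2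
    rw [h2, SP.pr_ne (by exact hN)]
    simp only
    rw [mul_div_cancel_right₀ _ hN]
  have h3 : sp (lx p) ⁻¹' ((fun z : ℂ => (z : OnePoint ℂ)) '' ball (0 : ℂ) r) ∈
      𝓝 (pr (p + a • pe p)) := by
    refine hcont.continuousAt.preimage_mem_nhds ?_
    rw [h1]
    exact hop.mem_nhds ⟨a, ha, rfl⟩
  filter_upwards [h3] with u hu
  obtain ⟨t, ht, htu⟩ := hu
  refine ⟨t, ht, ?_⟩
  have h4 : pr (hF (lx p) (hc u)) = pr (t, 1) := by
    rw [SP.pr_ne (p := (t, 1)) (by simp)]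
    simp only [div_one]
    exact htu.symm
  have h5 : hF (lx p) (hc u) ≠ 0 := fun h => (hhc u).2 (ND_lx hp _ h)
  have h6 := (hprcr _ _ h5 (by simp)).1 h4
  rw [hF_lx] at h6
  have h7 : cr p (hc u) = t * cr (hc u) (pe p) := by
    simp only [cr] at h6 ⊢
    linear_combination h6
  rw [← (hhc u).1]
  refine (hprcr _ _ (hhc u).2 (line_ne hp t)).2 ?_
  simp only [cr, Prod.fst_add, Prod.snd_add, Prod.smul_fst, Prod.smul_snd, smul_eq_mul] at h7 ⊢
  linear_combination -h7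

/-! ### The attracting cycle -/

/-- contraction of a disc -/
theorem contract {g : ℂ → ℂ} {ρ : ℝ} (hρ : 0 < ρ)
    (hg : ∀ t ∈ ball (0 : ℂ) ρ, DifferentiableAt ℂ g t ∧ ‖g t‖ ≤ ρ / 8) :
    ∃ a : ℂ, ‖a‖ ≤ ρ / 8 ∧ g a = a ∧
      ∀ t ∈ ball (0 : ℂ) ρ, Tendsto (fun k : ℕ => g^[k] t) atTop (𝓝 a) := by
  have hdist : ∀ s ∈ closedBall (0 : ℂ) (ρ / 8), ∀ t ∈ closedBall (0 : ℂ) (ρ / 8),
      dist (g t) (g s) ≤ 3 / 4 * dist t s := by
    intro s hs t ht
    rw [mem_closedBall, dist_zero_right] at hs ht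
    have hsub : ball s (ρ / 2) ⊆ ball (0 : ℂ) ρ := by
      intro y hy
      rw [mem_ball] at hy ⊢
      have := dist_triangle y s 0
      rw [dist_zero_right s] at this
      linarith
    have hs0 : s ∈ ball (0 : ℂ) ρ := hsub (mem_ball_self (by linarith))
    have hmaps : MapsTo g (ball s (ρ / 2)) (closedBall (g s) (3 * ρ / 8)) := by
      intro y hy
      rw [mem_closedBall, dist_eq_norm]
      have h1 := (hg y (hsub hy)).2
      have h2 := (hg s hs0).2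
      have h3 := norm_sub_le (g y) (g s)
      linarith
    have hd : DifferentiableOn ℂ g (ball s (ρ / 2)) := fun y hy =>
      (hg y (hsub hy)).1.differentiableWithinAt
    have htm : t ∈ ball s (ρ / 2) := by
      rw [mem_ball, dist_eq_norm]
      have h3 := norm_sub_le t s
      linarith
    have h4 := Complex.dist_le_div_mul_dist_of_mapsTo_ball hd hmaps htm
    have h5 : 3 * ρ / 8 / (ρ / 2) = 3 / 4 := by
      field_simp
      norm_num
    rw [h5] at h4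
    exact h4
  have hmaps : MapsTo g (closedBall (0 : ℂ) (ρ / 8)) (closedBall (0 : ℂ) (ρ / 8)) := by
    intro y hy
    rw [mem_closedBall, dist_zero_right] at hy ⊢
    exact (hg y (by rw [mem_ball, dist_zero_right]; linarith)).2
  have hcw : ContractingWith (3 / 4) (hmaps.restrict g _ _) := by
    refine ⟨by rw [← NNReal.coe_lt_coe]; norm_num, ?_⟩
    refine LipschitzWith.of_dist_le_mul ?_
    intro s t
    have h := hdist t.1 t.2 s.1 s.2
    have h34 : (((3 / 4 : NNReal)) : ℝ) = 3 / 4 := by norm_num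
    rw [h34]
    exact h
  have h0 : (0 : ℂ) ∈ closedBall (0 : ℂ) (ρ / 8) := mem_closedBall_self (by linarith)
  obtain ⟨a, ha, hfix, hten, -⟩ := ContractingWith.exists_fixedPoint'
    (isClosed_closedBall.isComplete) hmaps hcw h0 (edist_ne_top _ _)
  have han : ‖a‖ ≤ ρ / 8 := by simpa using ha
  refine ⟨a, han, hfix, ?_⟩
  intro t ht
  have hgt : g t ∈ closedBall (0 : ℂ) (ρ / 8) := by
    rw [mem_closedBall, dist_zero_right]
    exact (hg t ht).2
  have hk : ∀ k : ℕ, g^[k] (g t) ∈ closedBall (0 : ℂ) (ρ / 8) ∧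
      dist (g^[k] (g t)) a ≤ (3 / 4) ^ k * dist (g t) a := by
    intro k
    induction k with
    | zero => exact ⟨hgt, by simp⟩
    | succ k ih =>
      rw [Function.iterate_succ_apply']
      refine ⟨hmaps ih.1, ?_⟩
      have h1 := hdist a ha _ ih.1
      rw [hfix] at h1
      calc _ ≤ 3 / 4 * dist (g^[k] (g t)) a := h1
        _ ≤ 3 / 4 * ((3 / 4) ^ k * dist (g t) a) := by
            exact mul_le_mul_of_nonneg_left ih.2 (by norm_num)
        _ = _ := by rw [pow_succ]; ring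
  have h2 : Tendsto (fun k : ℕ => g^[k] (g t)) atTop (𝓝 a) := by
    rw [tendsto_iff_dist_tendsto_zero]
    refine squeeze_zero (fun _ => dist_nonneg) (fun k => (hk k).2) ?_
    have h4 := (tendsto_pow_atTop_nhds_zero_of_lt_one (r := (3 / 4 : ℝ)) (by norm_num)
      (by norm_num)).mul_const (dist (g t) a)
    rwa [zero_mul] at h4
  have h3 : Tendsto (fun k : ℕ => g^[k + 1] t) atTop (𝓝 a) := by
    refine h2.congr fun k => ?_
    rw [Function.iterate_succ_apply]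
  exact (tendsto_add_atTop_iff_nat 1).1 h3

theorem attr {d : ℕ} (hd : 2 ≤ d) (w : CV d) (hw : ND w) {c : ℂ × ℂ} (hc0 : c ≠ 0) (P : ℕ)
    {ρ : ℝ} (hρ : 0 < ρ) (hρ1 : ρ ≤ 1)
    (h : ∀ q : ℂ × ℂ, q ≠ 0 → cho c q ≤ ρ → cho c ((hF w)^[P] q) ≤ ρ / 16) :
    ∃ b : OnePoint ℂ, (sp w)^[P] b = b ∧ ∃ U ∈ 𝓝 b,
      (∀ u ∈ U, Tendsto (fun k : ℕ => (sp w)^[P * k] u) atTop (𝓝 b)) ∧
      ∀ q : ℂ × ℂ, q ≠ 0 → cho c q ≤ ρ / 4 → pr q ∈ U := by
  obtain ⟨hcont, hsp, hprcr, hhc, hprc⟩ := SP d w (by omega) hw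
  set G : ℂ × ℂ → ℂ × ℂ := fun q => (hF w)^[P] q with hG
  have hGne : ∀ q, q ≠ 0 → G q ≠ 0 := fun q hq => hw.iter_ne P hq
  set g : ℂ → ℂ := fun t => cr c (G (c + t • pe c)) / cr (G (c + t • pe c)) (pe c) with hg
  have hkey : ∀ t ∈ ball (0 : ℂ) ρ, cr (G (c + t • pe c)) (pe c) ≠ 0 ∧ ‖g t‖ ≤ ρ / 8 := by
    intro t ht
    rw [mem_ball, dist_zero_right] at ht
    have h1 := h (c + t • pe c) (line_ne hc0 t) ((cho_line hc0 t).trans ht.le)
    obtain ⟨h2, h3⟩ := coord hc0 (hGne _ (line_ne hc0 t)) (τ := ρ / 16) (by linarith) h1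
    exact ⟨h2, h3.trans (by linarith)⟩
  have hgd : ∀ t ∈ ball (0 : ℂ) ρ, DifferentiableAt ℂ g t ∧ ‖g t‖ ≤ ρ / 8 := by
    intro t ht
    refine ⟨?_, (hkey t ht).2⟩
    have hline : DifferentiableAt ℂ (fun t : ℂ => c + t • pe c) t :=
      (INJL.line c (pe c) t).hasDerivAt.differentiableAt
    have hGd : DifferentiableAt ℂ (fun t : ℂ => G (c + t • pe c)) t :=
      DifferentiableAt.comp t (g := G) (f := fun t : ℂ => c + t • pe c)
        (CHAIN.iter_diff w P (c + t • pe c)) hline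
    have hd1 : DifferentiableAt ℂ (fun t : ℂ => (G (c + t • pe c)).1) t := hGd.fst
    have hd2 : DifferentiableAt ℂ (fun t : ℂ => (G (c + t • pe c)).2) t := hGd.snd
    refine DifferentiableAt.div ?_ ?_ (hkey t ht).1
    · exact (hd2.const_mul c.1).sub (hd1.const_mul c.2)
    · exact (hd1.mul_const (pe c).2).sub (hd2.mul_const (pe c).1)
  have hstep : ∀ t ∈ ball (0 : ℂ) ρ, (sp w)^[P] (pr (c + t • pe c)) = pr (c + g t • pe c) := by
    intro t ht
    rw [hsp _ (line_ne hc0 t) P]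
    exact (hprcr _ _ (hGne _ (line_ne hc0 t)) (line_ne hc0 _)).2 (cr_coord (hkey t ht).1)
  obtain ⟨a, ha, hfix, hten⟩ := contract hρ hgd
  have haρ : a ∈ ball (0 : ℂ) ρ := by
    rw [mem_ball, dist_zero_right]
    linarith
  refine ⟨pr (c + a • pe c), ?_, _, nbhd hc0 haρ, ?_, ?_⟩
  · rw [hstep a haρ, hfix]
  · rintro u ⟨t, ht, rfl⟩
    have hit : ∀ k : ℕ, g^[k] t ∈ ball (0 : ℂ) ρ ∧
        (sp w)^[P * k] (pr (c + t • pe c)) = pr (c + (g^[k] t) • pe c) := by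
      intro k
      induction k with
      | zero => exact ⟨ht, by simp⟩
      | succ k ih =>
        constructor
        · rw [Function.iterate_succ_apply', mem_ball, dist_zero_right]
          have := (hkey _ ih.1).2
          linarith
        · rw [Nat.mul_succ, add_comm, Function.iterate_add_apply, ih.2, hstep _ ih.1,
            Function.iterate_succ_apply']
    have h4 : ContinuousAt (fun t : ℂ => pr (c + t • pe c)) a := by
      have h5 : ContinuousAt pr (c + a • pe c) := SP.continuousAt_pr (line_ne hc0 a)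
      exact ContinuousAt.comp (f := fun t : ℂ => c + t • pe c) (g := pr) (x := a) h5
        (INJL.line c (pe c) a).hasDerivAt.continuousAt
    refine (h4.tendsto.comp (hten t ht)).congr fun k => ?_
    exact (hit k).2.symm
  · intro q hq hcq
    obtain ⟨h1, h2⟩ := coord hc0 hq (τ := ρ / 4) (by linarith) hcq
    refine ⟨cr c q / cr q (pe c), ?_, ?_⟩
    · rw [mem_ball, dist_zero_right]
      linarith
    · exact (hprcr _ _ hq (line_ne hc0 _)).2 (cr_coord h1)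

/-! ### Perturbation -/

theorem pert (hCHO : S_CHO) {d : ℕ} {K δ : ℝ} (hK : 1 ≤ K) (hδ : 0 ≤ δ) (w z : CV d)
    (hw : ND w) (hz : ND z)
    (h1 : ∀ p q : ℂ × ℂ, p ≠ 0 → q ≠ 0 → cho (hF w p) (hF w q) ≤ K * cho p q)
    (h2 : ∀ p : ℂ × ℂ, p ≠ 0 → cho (hF w p) (hF z p) ≤ K * δ) (i : ℕ) (p q : ℂ × ℂ)
    (hp : p ≠ 0) (hq : q ≠ 0) :
    cho ((hF w)^[i] p) ((hF z)^[i] q) ≤ K ^ i * (cho p q + i * δ) := by
  obtain ⟨htri, hcho, -⟩ := hCHO
  induction i with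
  | zero => simp
  | succ i ih =>
    rw [Function.iterate_succ_apply', Function.iterate_succ_apply']
    have hwp := hw.iter_ne i hp
    have hzq := hz.iter_ne i hq
    have e1 := htri (hF w ((hF w)^[i] p)) (hF w ((hF z)^[i] q)) (hF z ((hF z)^[i] q))
      (fun h => hwp (hw _ h)) (fun h => hzq (hw _ h)) (fun h => hzq (hz _ h))
    have e2 := h1 _ _ hwp hzq
    have e3 := h2 _ hzq
    have e4 : K * δ ≤ K ^ (i + 1) * δ := by
      have : K ≤ K ^ (i + 1) := le_self_pow₀ hK (by omega)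
      exact mul_le_mul_of_nonneg_right this hδ
    calc _ ≤ K * cho ((hF w)^[i] p) ((hF z)^[i] q) + K * δ := by linarith
      _ ≤ K * (K ^ i * (cho p q + i * δ)) + K ^ (i + 1) * δ :=
          add_le_add (mul_le_mul_of_nonneg_left ih (by linarith)) e4
      _ = _ := by push_cast; ring

/-- the return map of the perturbed map -/
theorem retn (hCHO : S_CHO) {d : ℕ} {K δ ρ : ℝ} {M P : ℕ} (hK : 1 ≤ K) (hδ : 0 ≤ δ) (w z : CV d)
    (hw : ND w) (hz : ND z)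
    (h1 : ∀ p q : ℂ × ℂ, p ≠ 0 → q ≠ 0 → cho (hF w p) (hF w q) ≤ K * cho p q)
    (h1' : ∀ p q : ℂ × ℂ, p ≠ 0 → q ≠ 0 → cho (hF z p) (hF z q) ≤ K * cho p q)
    (h2 : ∀ p : ℂ × ℂ, p ≠ 0 → cho (hF w p) (hF z p) ≤ K * δ)
    {c : ℂ × ℂ} (hc0 : c ≠ 0)
    (h3 : ∀ q : ℂ × ℂ, q ≠ 0 → cho (hF z c) (hF z q) ≤ K * cho c q ^ 2)
    (hP : 1 ≤ P) (hPM : P ≤ M) (hper : cr ((hF z)^[P] c) c = 0)
    (hρ : 0 < ρ) (hρ1 : K ^ M * ρ ≤ 1 / 32) (hρ2 : K ^ M * (M * δ) ≤ ρ / 32) (q : ℂ × ℂ)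
    (hq : q ≠ 0) (hcq : cho c q ≤ ρ) : cho c ((hF w)^[P] q) ≤ ρ / 16 := by
  have hCHO' := hCHO
  obtain ⟨htri, hcho, hzero, -⟩ := hCHO'
  have hK0 : 0 < K := by linarith
  -- the unperturbed map
  have a1 : ∀ (i : ℕ) (p q : ℂ × ℂ), p ≠ 0 → q ≠ 0 →
      cho ((hF z)^[i] p) ((hF z)^[i] q) ≤ K ^ i * cho p q := by
    intro i p q hp hq
    have h := pert hCHO hK le_rfl z z hz hz h1' (δ := 0) (fun p hp => by
      have h0 : cho (hF z p) (hF z p) = 0 := by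
        refine (hzero _ _ (fun h => hp (hz _ h)) (fun h => hp (hz _ h))).2 ?_
        exact cr_self _
      rw [h0]; simp) i p q hp hq
    simpa using h
  obtain ⟨Q, rfl⟩ := Nat.exists_eq_add_of_le hP
  have hqP := hz.iter_ne (1 + Q) hq
  have hcP := hz.iter_ne (1 + Q) hc0
  have hwP := hw.iter_ne (1 + Q) hq
  have a2 : cho ((hF z)^[1 + Q] c) ((hF z)^[1 + Q] q) ≤ K ^ Q * (K * cho c q ^ 2) := by
    have e : 1 + Q = Q + 1 := by ring
    rw [e, Function.iterate_succ_apply, Function.iterate_succ_apply]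
    refine (a1 Q _ _ (fun h => hc0 (hz _ h)) (fun h => hq (hz _ h))).trans ?_
    exact mul_le_mul_of_nonneg_left (h3 q hq) (by positivity)
  have a3 : cho c ((hF z)^[1 + Q] c) = 0 := by
    rw [(hcho _ _).1]
    exact (hzero _ _ hcP hc0).2 hper
  have a4 := htri c ((hF z)^[1 + Q] c) ((hF z)^[1 + Q] q) hc0 hcP hqP
  have a5 := htri c ((hF z)^[1 + Q] q) ((hF w)^[1 + Q] q) hc0 hqP hwP
  have a6 := pert hCHO hK hδ w z hw hz h1 h2 (1 + Q) q q hq hq
  have a7 : cho q q = 0 := (hzero _ _ hq hq).2 (cr_self _)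
  rw [a7, zero_add, (hcho _ _).1] at a6
  have hcq0 : 0 ≤ cho c q := (hcho _ _).2.1
  have hKM : K ^ (1 + Q) ≤ K ^ M := pow_le_pow_right₀ hK hPM
  have a8 : K ^ Q * (K * cho c q ^ 2) ≤ ρ / 32 := by
    have e1 : K ^ Q * (K * cho c q ^ 2) = K ^ (1 + Q) * cho c q ^ 2 := by
      rw [pow_add]; ring
    rw [e1]
    calc K ^ (1 + Q) * cho c q ^ 2 ≤ K ^ M * ρ ^ 2 :=
          mul_le_mul hKM (pow_le_pow_left₀ hcq0 hcq 2) (by positivity) (by positivity)
      _ = K ^ M * ρ * ρ := by ring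
      _ ≤ 1 / 32 * ρ := mul_le_mul_of_nonneg_right hρ1 hρ.le
      _ = ρ / 32 := by ring
  have a9 : K ^ (1 + Q) * (((1 + Q : ℕ) : ℝ) * δ) ≤ ρ / 32 := by
    refine le_trans ?_ hρ2
    refine mul_le_mul hKM ?_ (by positivity) (by positivity)
    exact mul_le_mul_of_nonneg_right (by exact_mod_cast hPM) hδ
  linarith

/-! ### The theorem -/

theorem half_pow_le {a b : ℕ} (h : a ≤ b) : (1 / 2 : ℝ) ^ b ≤ (1 / 2 : ℝ) ^ a :=
  pow_le_pow_of_le_one (by norm_num) (by norm_num) h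

theorem t_OPENQ (hCHO : S_CHO) (hUE : S_UE) : S_OPENQ := by
  intro d x hd hx
  obtain ⟨η, hη, K, hK, hU1, hU2, hU3, hU4, hU5⟩ := hUE d x hd hx
  obtain ⟨L, hL⟩ := pow_unbounded_of_one_lt K (show (1 : ℝ) < 2 by norm_num)
  obtain ⟨k₀, hk₀⟩ := exists_pow_lt_of_lt_one (show (0 : ℝ) < η / 2 by positivity)
    (show (1 / 2 : ℝ) < 1 by norm_num)
  -- `K ≤ 2 ^ L`
  have hKpow : ∀ m : ℕ, K ^ m ≤ 2 ^ (L * m) := fun m => by
    rw [pow_mul]
    exact pow_le_pow_left₀ (by linarith) hL.le m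
  -- exponents: with `M = 2 d n`
  refine ⟨η / 2, by positivity, k₀ + (2 * d + 4 * d * L + 10) + (L + (4 * d * L + 20) * (2 * d)),
    ?_⟩
  intro n hn z hz hPCF w hwz
  set C : ℕ := k₀ + (2 * d + 4 * d * L + 10) + (L + (4 * d * L + 20) * (2 * d)) with hC
  set M : ℕ := 2 * d * n with hM
  set δ : ℝ := ‖w - z‖ with hδ
  have hδ0 : 0 ≤ δ := norm_nonneg _
  have hzx : ‖z - x‖ ≤ η := by linarith
  have hδη : δ ≤ η / 2 := by
    refine hwz.trans ((half_pow_le ?_).trans hk₀.le)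
    calc k₀ ≤ C * 1 := by omega
      _ ≤ C * n := Nat.mul_le_mul_left C hn
  have hwx : ‖w - x‖ ≤ η := by
    have h1 : w - x = (w - z) + (z - x) := by abel
    rw [h1]
    refine (norm_add_le _ _).trans ?_
    linarith
  have hw := hU1 w hwx
  have hzN := hU1 z hzx
  refine ⟨hw, ?_⟩
  have hK0 : (0 : ℝ) < K := by linarith
  -- the radius
  set ρ : ℝ := (1 / 2 : ℝ) ^ (L * M + 5) with hρ
  have hρ0 : 0 < ρ := by positivity
  have hρ1 : ρ ≤ 1 := pow_le_one₀ (by norm_num) (by norm_num)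
  have hKM : K ^ M * (1 / 2 : ℝ) ^ (L * M) ≤ 1 := by
    calc K ^ M * (1 / 2 : ℝ) ^ (L * M) ≤ 2 ^ (L * M) * (1 / 2 : ℝ) ^ (L * M) :=
          mul_le_mul_of_nonneg_right (hKpow M) (by positivity)
      _ = 1 := by rw [← mul_pow]; norm_num
  have hKρ : K ^ M * ρ ≤ 1 / 32 := by
    have e : K ^ M * ρ = K ^ M * (1 / 2 : ℝ) ^ (L * M) * (1 / 32) := by
      rw [hρ, pow_add]; norm_num; ring
    rw [e]
    linarith
  have hMM : (M : ℝ) * (1 / 2 : ℝ) ^ M ≤ 1 := by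
    have h1 : (M : ℝ) ≤ 2 ^ M := by exact_mod_cast (Nat.lt_two_pow_self (n := M)).le
    calc (M : ℝ) * (1 / 2 : ℝ) ^ M ≤ 2 ^ M * (1 / 2 : ℝ) ^ M :=
          mul_le_mul_of_nonneg_right h1 (by positivity)
      _ = 1 := by rw [← mul_pow]; norm_num
  have hδ2 : K ^ M * (M * δ) ≤ ρ / 32 := by
    have h1 : δ ≤ (1 / 2 : ℝ) ^ (M + (L * M + (L * M + 10))) := by
      refine hwz.trans (half_pow_le ?_)
      have e : M + (L * M + (L * M + 10)) ≤ (2 * d + 4 * d * L + 10) * n := by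
        rw [hM]
        nlinarith
      refine e.trans (Nat.mul_le_mul_right n ?_)
      omega
    calc K ^ M * (M * δ) ≤ K ^ M * (M * (1 / 2 : ℝ) ^ (M + (L * M + (L * M + 10)))) := by
          gcongr
      _ = (K ^ M * (1 / 2 : ℝ) ^ (L * M)) * ((M : ℝ) * (1 / 2 : ℝ) ^ M) *
            (1 / 2 : ℝ) ^ (L * M + 10) := by
          rw [pow_add, pow_add]; ring
      _ ≤ 1 * 1 * (1 / 2 : ℝ) ^ (L * M + 10) := by
          gcongr
      _ = ρ / 32 := by
          rw [hρ, pow_add, pow_add]; norm_num; ring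
  have hδ3 : K * δ ≤ ((1 / 2 : ℝ) ^ (L * M + (L * M + 20))) ^ (2 * d - 2) := by
    have h1 : δ ≤ (1 / 2 : ℝ) ^ (L + (L * M + (L * M + 20)) * (2 * d - 2)) := by
      refine hwz.trans (half_pow_le ?_)
      have e0 : (L * M + (L * M + 20)) * (2 * d - 2) ≤ (L * M + (L * M + 20)) * (2 * d) :=
        Nat.mul_le_mul_left _ (by omega)
      have e1 : L * M + (L * M + 20) ≤ (4 * d * L + 20) * n := by
        rw [hM]
        nlinarith
      have e2 : (L * M + (L * M + 20)) * (2 * d) ≤ (4 * d * L + 20) * n * (2 * d) :=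
        Nat.mul_le_mul_right _ e1
      have e3 : L ≤ L * n := Nat.le_mul_of_pos_right L (by omega)
      have e4 : (4 * d * L + 20) * n * (2 * d) = ((4 * d * L + 20) * (2 * d)) * n := by ring
      have e5 : (L + (4 * d * L + 20) * (2 * d)) * n =
          L * n + ((4 * d * L + 20) * (2 * d)) * n := by ring
      have e6 : (L + (4 * d * L + 20) * (2 * d)) * n ≤ C * n := Nat.mul_le_mul_right n (by omega)
      omega
    calc K * δ ≤ 2 ^ L * (1 / 2 : ℝ) ^ (L + (L * M + (L * M + 20)) * (2 * d - 2)) := by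
          gcongr
      _ = (2 ^ L * (1 / 2 : ℝ) ^ L) * ((1 / 2 : ℝ) ^ (L * M + (L * M + 20))) ^ (2 * d - 2) := by
          rw [pow_add _ L, pow_mul _ _ (2 * d - 2)]; ring
      _ = _ := by rw [← mul_pow]; norm_num
  -- the critical points of `w`
  intro c hcrit
  obtain ⟨hcontw, hspw, hprcrw, hhcw, hprcw⟩ := SP d w (by omega) hw
  obtain ⟨hcontz, hspz, hprcrz, hhcz, hprcz⟩ := SP d z (by omega) hzN
  have hcw : wr w (hc c) = 0 := by
    by_contra hne
    obtain ⟨U, hU, hinj⟩ := INJL SP WR d w (hc c) hd hw (hhcw c).2 hne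
    rw [(hhcw c).1] at hU
    exact hcrit ⟨U, hU, hinj⟩
  obtain ⟨q, hq0, hqz, hqd⟩ := hU5 w z hwx hzx (hc c) (hhcw c).2 hcw
  -- the orbit of the critical point of `z`
  have hmap : ∀ a ∈ Cri z, ∃ k : ℕ, 1 ≤ k ∧ k ≤ n ∧ (sp z)^[k] a ∈ Cri z := by
    intro a ha
    obtain ⟨j, hj1, hj2, c', hc'0, hc'w, hc'c⟩ := hPCF (hc a) (hhcz a).2 ha
    refine ⟨j, hj1, hj2, ?_⟩
    have h1 : (sp z)^[j] a = pr ((hF z)^[j] (hc a)) := by
      rw [← hspz (hc a) (hhcz a).2 j, (hhcz a).1]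
    have h2 : pr ((hF z)^[j] (hc a)) = pr c' :=
      (hprcrz _ _ (hzN.iter_ne j (hhcz a).2) hc'0).2 hc'c
    show wr z (hc ((sp z)^[j] a)) = 0
    rw [h1, h2]
    exact wr_hc_pr hd z hc'0 hc'w
  obtain ⟨l, P, hlM, hP, hPM, hlS, hper⟩ := chainN (sp z) (Cri z) (2 * d) n (Cri_finite hd z hzN)
    (Cri_ncard hd z hzN) hmap (pr q) (wr_hc_pr hd z hq0 hqz)
  set b : OnePoint ℂ := (sp z)^[l] (pr q) with hb
  set cs : ℂ × ℂ := hc b with hcs
  have hcs0 : cs ≠ 0 := (hhcz b).2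
  have hcsw : wr z cs = 0 := hlS
  have hper' : cr ((hF z)^[P] cs) cs = 0 := by
    rw [← hprcrz _ _ (hzN.iter_ne P hcs0) hcs0, ← hspz _ hcs0 P, (hhcz b).1]
    exact hper
  have hreach : cr ((hF z)^[l] q) cs = 0 := by
    rw [← hprcrz _ _ (hzN.iter_ne l hq0) hcs0, ← hspz _ hq0 l, (hhcz b).1]
  have hU2w := hU2 w hwx
  have hU2z := hU2 z hzx
  have hU3' : ∀ p : ℂ × ℂ, p ≠ 0 → cho (hF w p) (hF z p) ≤ K * δ := hU3 w z hwx hzx
  obtain ⟨b', hb', U, hU, hUt, hUin⟩ := attr hd w hw hcs0 P hρ0 hρ1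
    (fun r hr hcr => retn hCHO hK hδ0 w z hw hzN hU2w hU2z hU3' hcs0
      (fun q hq => hU4 z hzx cs q hcs0 hq hcsw) hP hPM hper' hρ0 hKρ hδ2 r hr hcr)
  refine reachU (sp w) hcontw c b' l P hP hb' ⟨U, hU, hUt, ?_⟩
  have hcc : (sp w)^[l] c = pr ((hF w)^[l] (hc c)) := by
    rw [← hspw (hc c) (hhcw c).2 l, (hhcw c).1]
  rw [hcc]
  refine hUin _ (hw.iter_ne l (hhcw c).2) ?_
  -- the distance
  have hCHO' := hCHO
  obtain ⟨htri, hcho, hzero, -⟩ := hCHO'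
  have hqd' : cho (hc c) q ≤ (1 / 2 : ℝ) ^ (L * M + (L * M + 20)) := by
    have h1 : cho (hc c) q ^ (2 * d - 2) ≤
        ((1 / 2 : ℝ) ^ (L * M + (L * M + 20))) ^ (2 * d - 2) := hqd.trans hδ3
    exact (pow_le_pow_iff_left₀ (cho_nonneg _ _) (by positivity) (by omega)).1 h1
  have f1 := pert hCHO hK hδ0 w z hw hzN hU2w hU3' l (hc c) q (hhcw c).2 hq0
  have f2 := htri cs ((hF z)^[l] q) ((hF w)^[l] (hc c)) hcs0 (hzN.iter_ne l hq0)
    (hw.iter_ne l (hhcw c).2)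
  have f3 : cho cs ((hF z)^[l] q) = 0 := by
    rw [(hcho _ _).1]
    exact (hzero _ _ (hzN.iter_ne l hq0) hcs0).2 hreach
  have f4 : cho ((hF z)^[l] q) ((hF w)^[l] (hc c)) = cho ((hF w)^[l] (hc c)) ((hF z)^[l] q) :=
    (hcho _ _).1
  have hKl : K ^ l ≤ K ^ M := pow_le_pow_right₀ hK hlM
  have f5 : K ^ l * (cho (hc c) q + l * δ) ≤ ρ / 4 := by
    have g1 : K ^ l * (cho (hc c) q + l * δ) ≤
        K ^ M * ((1 / 2 : ℝ) ^ (L * M + (L * M + 20)) + M * δ) := by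
      refine mul_le_mul hKl ?_ ?_ (by positivity)
      · exact add_le_add hqd' (mul_le_mul_of_nonneg_right (by exact_mod_cast hlM) hδ0)
      · have := cho_nonneg (hc c) q
        positivity
    have g2 : K ^ M * (1 / 2 : ℝ) ^ (L * M + (L * M + 20)) ≤ ρ / 32 := by
      calc K ^ M * (1 / 2 : ℝ) ^ (L * M + (L * M + 20)) =
            (K ^ M * (1 / 2 : ℝ) ^ (L * M)) * (1 / 2 : ℝ) ^ (L * M + 20) := by
            rw [pow_add]; ring
        _ ≤ 1 * (1 / 2 : ℝ) ^ (L * M + 20) := mul_le_mul_of_nonneg_right hKM (by positivity)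
        _ ≤ ρ / 32 := by
            rw [hρ, pow_add, pow_add, one_mul]
            have : (0 : ℝ) < (1 / 2 : ℝ) ^ (L * M) := by positivity
            nlinarith
    rw [mul_add] at g1
    linarith
  linarith

end Pool.Agent.H385.HY211
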